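import Pool.Agent.H95.Hyp.Main

/-! Hyperbola law for the factorisations of `2 ^ M + 1` (Fermat numbers: `M = 2 ^ m`).
If `d * e = 2 ^ M + 1` and `2 ^ n` exactly divides `d - 1` (equivalently `e - 1`), then
`n * M ≤ (1 + ε) * log₂ d * log₂ e`, with exceptions that are bounded in number for each `M`,
lie on finitely many plane curves `P (d, 2 ^ M) = 0`, and have both `n / M` and `log₂ d / M`
within `O (1 / M)` of rational numbers with bounded denominators. -/

namespace Pool.Agent.H95.Hyp.Law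

open Finset Real Pool.Agent.H95.Hyp

lemma val_le {d : ℕ} (hd : 1 < d) : (padicValNat 2 (d - 1) : ℝ) ≤ logb 2 d := by
  have h1 : 2 ^ padicValNat 2 (d - 1) ∣ d - 1 := pow_padicValNat_dvd
  have h2 : 2 ^ padicValNat 2 (d - 1) ≤ d - 1 := Nat.le_of_dvd (by omega) h1
  have h3 : (2 : ℝ) ^ padicValNat 2 (d - 1) ≤ d := by
    exact_mod_cast (by omega : 2 ^ padicValNat 2 (d - 1) ≤ d)
  have h4 := logb_le_logb_of_le one_lt_two (by positivity) h3
  rw [logb_pow, logb_self_eq_one one_lt_two, mul_one] at h4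
  exact h4

lemma log_le {M d e : ℕ} (hd : 1 < d) (he : 1 < e) (h : d * e = 2 ^ M + 1) :
    logb 2 d ≤ M + 1 ∧ 0 ≤ logb 2 d := by
  have h1 : d ≤ 2 ^ M + 1 := by
    rw [← h]; exact Nat.le_mul_of_pos_right _ (by omega)
  have h2 : (d : ℝ) ≤ (2 : ℝ) ^ (M + 1) := by
    have : d ≤ 2 ^ (M + 1) := by
      have := Nat.one_le_two_pow (n := M)
      rw [pow_succ]; omega
    exact_mod_cast this
  have h4 := logb_le_logb_of_le one_lt_two (by exact_mod_cast (by omega : 0 < d)) h2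
  rw [logb_pow, logb_self_eq_one one_lt_two, mul_one] at h4
  refine ⟨by exact_mod_cast h4, ?_⟩
  apply logb_nonneg one_lt_two
  exact_mod_cast hd.le

/-- For every `ε > 0` there are a constant `C` and a finite set `Ps` of nonzero integer polynomials
in two variables such that for every `M ≥ 1` the number of factorisations `2 ^ M + 1 = d * e` with
`d, e > 1` and `v₂ (d - 1) * M > (1 + ε) * log₂ d * log₂ e` is at most `C`, and each of them has
`P (min d e, 2 ^ M) = 0` for some `P` in `Ps`, and both `v₂ (d - 1)` and `log₂ d` are within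
`C / q` of some `p * M / q` with `1 ≤ q ≤ C`. -/
theorem law (ε : ℝ) (hε : 0 < ε) : ∃ (C : ℕ) (Ps : Finset (MvPolynomial (Fin 2) ℤ)), 0 ∉ Ps ∧
    ∀ M : ℕ, 1 ≤ M →
      {x : ℕ × ℕ | x.1 * x.2 = 2 ^ M + 1 ∧ 1 < x.1 ∧ 1 < x.2 ∧
        (1 + ε) * (Real.logb 2 x.1 * Real.logb 2 x.2) < padicValNat 2 (x.1 - 1) * M}.ncard ≤ C ∧
      ∀ d e : ℕ, d * e = 2 ^ M + 1 → 1 < d → 1 < e →
        (1 + ε) * (Real.logb 2 d * Real.logb 2 e) < padicValNat 2 (d - 1) * M →
        (∃ P ∈ Ps, MvPolynomial.eval ![((min d e : ℕ) : ℤ), 2 ^ M] P = 0) ∧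
        (∃ p q : ℕ, 1 ≤ q ∧ q ≤ C ∧ |(q : ℝ) * padicValNat 2 (d - 1) - p * M| ≤ C) ∧
        (∃ p q : ℕ, 1 ≤ q ∧ q ≤ C ∧ |(q : ℝ) * Real.logb 2 d - p * M| ≤ C) := by
  classical
  -- reduce to ε = 1 / E
  obtain ⟨E, hE1, hEε⟩ : ∃ E : ℕ, 1 ≤ E ∧ 1 / (E : ℝ) ≤ ε := by
    refine ⟨⌈1 / ε⌉₊ + 1, by omega, ?_⟩
    have h1 : 1 / ε ≤ ((⌈1 / ε⌉₊ + 1 : ℕ) : ℝ) := by
      push_cast
      have := Nat.le_ceil (1 / ε)
      linarith
    rw [div_le_iff₀ hε] at h1
    rw [div_le_iff₀ (by positivity)]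
    linarith
  obtain ⟨C₀, M₁, Ps₀, hPs₀, hmain⟩ := half E hE1
  -- the exceptional sets
  let Exc : ℕ → Set (ℕ × ℕ) := fun M => {x : ℕ × ℕ | x.1 * x.2 = 2 ^ M + 1 ∧ 1 < x.1 ∧ 1 < x.2 ∧
        (1 + ε) * (Real.logb 2 x.1 * Real.logb 2 x.2) < padicValNat 2 (x.1 - 1) * M}
  have hsub : ∀ M, Exc M ⊆ ((2 ^ M + 1).divisorsAntidiagonal : Set (ℕ × ℕ)) := by
    intro M x hx
    rw [Finset.mem_coe, Nat.mem_divisorsAntidiagonal]
    exact ⟨hx.1, by positivity⟩
  have hfin : ∀ M, (Exc M).Finite := fun M => (Finset.finite_toSet _).subset (hsub M)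
  have hexc' : ∀ M d e : ℕ, 1 < d → 1 < e →
      (1 + ε) * (Real.logb 2 d * Real.logb 2 e) < padicValNat 2 (d - 1) * M →
      (1 + 1 / (E : ℝ)) * (Real.logb 2 d * Real.logb 2 e) < padicValNat 2 (d - 1) * M := by
    intro M d e hd he h
    refine lt_of_le_of_lt ?_ h
    have h1 : 0 ≤ Real.logb 2 d := logb_nonneg one_lt_two (by exact_mod_cast hd.le)
    have h2 : 0 ≤ Real.logb 2 e := logb_nonneg one_lt_two (by exact_mod_cast he.le)
    gcongr
  obtain ⟨C₁, hC₁⟩ : ∃ C₁ : ℕ, ∀ M < M₁, ((2 ^ M + 1).divisorsAntidiagonal).card ≤ C₁ := by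
    refine ⟨∑ M ∈ range M₁, ((2 ^ M + 1).divisorsAntidiagonal).card, fun M hM => ?_⟩
    exact Finset.single_le_sum (f := fun M => ((2 ^ M + 1).divisorsAntidiagonal).card)
      (fun _ _ => Nat.zero_le _) (mem_range.mpr hM)
  let Ps₁ : Finset (MvPolynomial (Fin 2) ℤ) :=
    (range (2 ^ M₁ + 2)).image (fun a : ℕ => MvPolynomial.X 0 - MvPolynomial.C (a : ℤ))
  refine ⟨C₁ + 3 * C₀ + M₁ + 1, Ps₀ ∪ Ps₁, ?_, ?_⟩
  · rw [mem_union]
    rintro (h | h)
    · exact hPs₀ h
    · simp only [Ps₁, mem_image] at h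
      obtain ⟨a, -, ha⟩ := h
      have h1 := congrArg (MvPolynomial.eval ![(a : ℤ) + 1, 0]) ha
      simp at h1
  intro M hM
  change (Exc M).ncard ≤ _ ∧ _
  by_cases hMM : M < M₁
  · -- small exponents
    constructor
    · calc (Exc M).ncard ≤ ((2 ^ M + 1).divisorsAntidiagonal : Set (ℕ × ℕ)).ncard :=
          Set.ncard_le_ncard (hsub M) (Finset.finite_toSet _)
        _ = ((2 ^ M + 1).divisorsAntidiagonal).card := Set.ncard_coe_finset _
        _ ≤ C₁ + 3 * C₀ + M₁ + 1 := by have := hC₁ M hMM; omega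
    · intro d e hde hd he _
      have hlog := log_le hd he hde
      have hv := val_le hd
      have hMC : ((M : ℝ) + 1) ≤ ((C₁ + 3 * C₀ + M₁ + 1 : ℕ) : ℝ) := by
        exact_mod_cast (by omega : M + 1 ≤ C₁ + 3 * C₀ + M₁ + 1)
      refine ⟨?_, ⟨0, 1, le_rfl, by omega, ?_⟩, ⟨0, 1, le_rfl, by omega, ?_⟩⟩
      · refine ⟨MvPolynomial.X 0 - MvPolynomial.C ((min d e : ℕ) : ℤ), ?_, by simp⟩
        rw [mem_union]
        right
        simp only [Ps₁, mem_image]
        refine ⟨min d e, ?_, rfl⟩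
        rw [mem_range]
        have h1 : d ≤ 2 ^ M + 1 := by
          rw [← hde]; exact Nat.le_mul_of_pos_right _ (by omega)
        have h2 : 2 ^ M ≤ 2 ^ M₁ := Nat.pow_le_pow_right (by norm_num) hMM.le
        have h3 : min d e ≤ d := min_le_left _ _
        omega
      · rw [abs_le]
        have : (0 : ℝ) ≤ padicValNat 2 (d - 1) := by positivity
        constructor <;> push_cast at * <;> nlinarith
      · rw [abs_le]
        constructor <;> push_cast at * <;> nlinarith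
  · push Not at hMM
    obtain ⟨F, hF, hF2⟩ := hmain M hMM
    -- symmetry
    have hsymm : ∀ d e : ℕ, d * e = 2 ^ M + 1 → 1 < d → 1 < e →
        (1 + ε) * (Real.logb 2 d * Real.logb 2 e) < padicValNat 2 (d - 1) * M →
        (1 + ε) * (Real.logb 2 e * Real.logb 2 d) < padicValNat 2 (e - 1) * M := by
      intro d e hde hd he h
      rw [val_symm hd he hde, mul_comm (logb 2 (e : ℝ))]
      exact h
    constructor
    · have h1 : Exc M ⊆ {x ∈ Exc M | x.1 ≤ x.2} ∪ {x ∈ Exc M | x.2 ≤ x.1} := by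
        intro x hx
        rcases le_total x.1 x.2 with h | h
        · left; exact ⟨hx, h⟩
        · right; exact ⟨hx, h⟩
      have hfA : ({x ∈ Exc M | x.1 ≤ x.2}).Finite := (hfin M).subset (fun x hx => hx.1)
      have hfB : ({x ∈ Exc M | x.2 ≤ x.1}).Finite := (hfin M).subset (fun x hx => hx.1)
      have hA : ({x ∈ Exc M | x.1 ≤ x.2}).ncard ≤ C₀ := by
        calc ({x ∈ Exc M | x.1 ≤ x.2}).ncard ≤ (F : Set ℤ).ncard := by
              apply Set.ncard_le_ncard_of_injOn (fun x : ℕ × ℕ => (1 - x.1 : ℤ))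
              · rintro x ⟨hx, hx2⟩
                exact (hF2 x.1 x.2 hx.2.1 hx2 hx.1 (hexc' M _ _ hx.2.1 hx.2.2.1 hx.2.2.2)).2.1
              · rintro x ⟨hx, -⟩ y ⟨hy, -⟩ hxy
                simp only [sub_right_inj, Nat.cast_inj] at hxy
                have h2 : x.1 * x.2 = x.1 * y.2 := by rw [hx.1, hxy, hy.1]
                have h3 : x.2 = y.2 := Nat.eq_of_mul_eq_mul_left (by have := hx.2.1; omega) h2
                exact Prod.ext hxy h3
          _ = F.card := Set.ncard_coe_finset _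
          _ ≤ C₀ := hF
      have hB : ({x ∈ Exc M | x.2 ≤ x.1}).ncard ≤ C₀ := by
        calc ({x ∈ Exc M | x.2 ≤ x.1}).ncard ≤ (F : Set ℤ).ncard := by
              apply Set.ncard_le_ncard_of_injOn (fun x : ℕ × ℕ => (1 - x.2 : ℤ))
              · rintro x ⟨hx, hx2⟩
                have h4 := hsymm x.1 x.2 hx.1 hx.2.1 hx.2.2.1 hx.2.2.2
                exact (hF2 x.2 x.1 hx.2.2.1 hx2 (by rw [mul_comm]; exact hx.1)
                  (hexc' M _ _ hx.2.2.1 hx.2.1 h4)).2.1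
              · rintro x ⟨hx, -⟩ y ⟨hy, -⟩ hxy
                simp only [sub_right_inj, Nat.cast_inj] at hxy
                have h2 : x.1 * x.2 = y.1 * x.2 := by rw [hx.1, hxy, hy.1]
                have h3 : x.1 = y.1 := Nat.eq_of_mul_eq_mul_right (by have := hx.2.2.1; omega) h2
                exact Prod.ext h3 hxy
          _ = F.card := Set.ncard_coe_finset _
          _ ≤ C₀ := hF
      calc (Exc M).ncard ≤ ({x ∈ Exc M | x.1 ≤ x.2} ∪ {x ∈ Exc M | x.2 ≤ x.1}).ncard :=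
            Set.ncard_le_ncard h1 (hfA.union hfB)
        _ ≤ ({x ∈ Exc M | x.1 ≤ x.2}).ncard + ({x ∈ Exc M | x.2 ≤ x.1}).ncard :=
            Set.ncard_union_le _ _
        _ ≤ C₁ + 3 * C₀ + M₁ + 1 := by omega
    · intro d e hde hd he hexc
      have hCC : (C₀ : ℝ) ≤ ((C₁ + 3 * C₀ + M₁ + 1 : ℕ) : ℝ) := by
        exact_mod_cast (by omega : C₀ ≤ C₁ + 3 * C₀ + M₁ + 1)
      rcases le_total d e with h | h
      · obtain ⟨⟨P, hP, hP2⟩, -, ⟨r, q, hq1, hq2, hq3⟩, ⟨r', q', hq1', hq2', hq3'⟩⟩ :=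
          hF2 d e hd h hde (hexc' M _ _ hd he hexc)
        rw [min_eq_left h]
        exact ⟨⟨P, mem_union_left _ hP, hP2⟩, ⟨r, q, hq1, by omega, hq3.trans hCC⟩,
          ⟨r', q', hq1', by omega, hq3'.trans hCC⟩⟩
      · obtain ⟨⟨P, hP, hP2⟩, -, ⟨r, q, hq1, hq2, hq3⟩, ⟨r', q', hq1', hq2', hq3'⟩⟩ :=
          hF2 e d he h (by rw [mul_comm]; exact hde)
            (hexc' M _ _ he hd (hsymm d e hde hd he hexc))
        rw [min_eq_right h]
        rw [val_symm hd he hde] at hq3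
        refine ⟨⟨P, mem_union_left _ hP, hP2⟩, ⟨r, q, hq1, by omega, hq3.trans hCC⟩, ?_⟩
        -- log d = log (2 ^ M + 1) - log e
        obtain ⟨h1, h2, -, -⟩ := logs he h (by rw [mul_comm]; exact hde)
        have hlog0 := (log_le hd he hde).2
        have hC3 : (3 * C₀ : ℝ) ≤ ((C₁ + 3 * C₀ + M₁ + 1 : ℕ) : ℝ) := by
          exact_mod_cast (by omega : 3 * C₀ ≤ C₁ + 3 * C₀ + M₁ + 1)
        have hq'C : (q' : ℝ) ≤ C₀ := by exact_mod_cast hq2'
        have hq'0 : (1 : ℝ) ≤ q' := by exact_mod_cast hq1'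
        rw [abs_le] at hq3'
        have hMr : (0 : ℝ) < M := by exact_mod_cast (by omega : 0 < M)
        have h3 : q' * (M - logb 2 e) ≤ q' * logb 2 d := by
          apply mul_le_mul_of_nonneg_left _ (by linarith); linarith
        have h4 : q' * logb 2 d ≤ q' * (M + 1 - logb 2 e) := by
          apply mul_le_mul_of_nonneg_left _ (by linarith); linarith
        rcases le_total r' q' with hr | hr
        · obtain ⟨s, rfl⟩ := Nat.exists_eq_add_of_le hr
          refine ⟨s, r' + s, hq1', by omega, ?_⟩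
          refine le_trans ?_ hC3
          push_cast at *
          rw [abs_le]
          constructor <;> nlinarith
        · -- then `q' M ≤ r' M`, so `q' log d` is itself bounded
          refine ⟨0, q', hq1', by omega, ?_⟩
          refine le_trans ?_ hC3
          have hr' : (q' : ℝ) * M ≤ r' * M := by
            have : (q' : ℝ) ≤ r' := by exact_mod_cast hr
            gcongr
          have h5 : 0 ≤ q' * logb 2 d := by positivity
          push_cast
          rw [zero_mul, sub_zero, abs_of_nonneg h5]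
          nlinarith

end Pool.Agent.H95.Hyp.Law
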