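import Mathlib

/-! Auxiliary integer polynomials vanishing to order `t` at `(1,1)` (Siegel's lemma, soft form). -/

namespace Pool.Agent.H95.Hyp

open Finset

/-- index set of the vanishing conditions -/
def idx (t : ℕ) : Finset (Σ _ : ℕ, ℕ) := (range t).sigma (fun a => range (t - a))

lemma card_idx (t : ℕ) : 2 * (idx t).card = t * (t + 1) := by
  unfold idx
  rw [card_sigma]
  simp only [card_range]
  induction t with
  | zero => simp
  | succ t ih =>
    rw [Finset.sum_range_succ']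
    have h : ∑ k ∈ range t, (t + 1 - (k + 1)) = ∑ k ∈ range t, (t - k) := by
      apply Finset.sum_congr rfl
      intro k _
      omega
    rw [h]
    have : 2 * (∑ k ∈ range t, (t - k) + (t + 1 - 0)) = 2 * ∑ k ∈ range t, (t - k) + 2 * (t + 1) := by
      simp; ring
    rw [this, ih]; ring

/-- existence of auxiliary integer coefficients -/
lemma exists_coeff (t : ℕ) (ht : 1 ≤ t) (S : Finset (ℕ × ℕ)) (hS : t * (t + 1) < 2 * S.card) :
    ∃ c : ℕ × ℕ → ℤ, (∀ p, p ∉ S → c p = 0) ∧ (∃ p, c p ≠ 0) ∧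
      ∀ a b : ℕ, a + b < t → ∑ p ∈ S, c p * ((p.1.choose a : ℤ) * (p.2.choose b : ℤ)) = 0 := by
  classical
  let A : Matrix (idx t) S ℤ := fun i p => ((p.1.1.choose i.1.1 : ℤ) * (p.1.2.choose i.1.2 : ℤ))
  have hc := card_idx t
  have h1 : Fintype.card (idx t) < Fintype.card S := by
    rw [Fintype.card_coe, Fintype.card_coe]; omega
  have h2 : 0 < Fintype.card (idx t) := by
    rw [Fintype.card_coe]
    have : 0 < t * (t + 1) := by positivity
    omega
  obtain ⟨v, hv, hAv, -⟩ := Int.Matrix.exists_ne_zero_int_vec_norm_le A h1 h2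
  refine ⟨fun p => if h : p ∈ S then v ⟨p, h⟩ else 0, ?_, ?_, ?_⟩
  · intro p hp
    simp [hp]
  · by_contra hcon
    push Not at hcon
    apply hv
    funext p
    have := hcon p.1
    rw [dif_pos p.2] at this
    exact this
  · intro a b hab
    have hi : (⟨a, b⟩ : Σ _ : ℕ, ℕ) ∈ idx t := by
      unfold idx
      rw [mem_sigma]
      simp only [mem_range]
      omega
    have h3 := congrFun hAv ⟨⟨a, b⟩, hi⟩
    rw [Matrix.mulVec, dotProduct] at h3
    simp only [A, Pi.zero_apply] at h3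
    rw [← Finset.sum_coe_sort S (fun p => (if h : p ∈ S then v ⟨p, h⟩ else 0) *
      ((p.1.choose a : ℤ) * (p.2.choose b : ℤ)))]
    rw [← h3]
    apply Finset.sum_congr rfl
    intro p _
    rw [dif_pos p.2]
    ring

/-- uniform bound for the coefficients -/
lemma exists_bound (t : ℕ) (ht : 1 ≤ t) (Box : Finset (ℕ × ℕ)) :
    ∃ H : ℕ, ∀ S ⊆ Box, t * (t + 1) < 2 * S.card →
      ∃ c : ℕ × ℕ → ℤ, (∀ p, p ∉ S → c p = 0) ∧ (∃ p, c p ≠ 0) ∧ (∀ p, |c p| ≤ H) ∧
      ∀ a b : ℕ, a + b < t → ∑ p ∈ S, c p * ((p.1.choose a : ℤ) * (p.2.choose b : ℤ)) = 0 := by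
  classical
  have key : ∀ S : Finset (ℕ × ℕ), ∃ c : ℕ × ℕ → ℤ, t * (t + 1) < 2 * S.card →
      (∀ p, p ∉ S → c p = 0) ∧ (∃ p, c p ≠ 0) ∧
      ∀ a b : ℕ, a + b < t → ∑ p ∈ S, c p * ((p.1.choose a : ℤ) * (p.2.choose b : ℤ)) = 0 := by
    intro S
    by_cases hS : t * (t + 1) < 2 * S.card
    · obtain ⟨c, hc⟩ := exists_coeff t ht S hS
      exact ⟨c, fun _ => hc⟩
    · exact ⟨0, fun h => absurd h hS⟩
  choose f hf using key
  refine ⟨∑ S ∈ Box.powerset, ∑ p ∈ S, (f S p).natAbs, ?_⟩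
  intro S hSB hS
  obtain ⟨h1, h2, h3⟩ := hf S hS
  refine ⟨f S, h1, h2, ?_, h3⟩
  intro p
  by_cases hp : p ∈ S
  · have h4 : (f S p).natAbs ≤ ∑ p ∈ S, (f S p).natAbs :=
      Finset.single_le_sum (f := fun p => (f S p).natAbs) (fun _ _ => Nat.zero_le _) hp
    have h5 : ∑ p ∈ S, (f S p).natAbs ≤ ∑ S ∈ Box.powerset, ∑ p ∈ S, (f S p).natAbs :=
      Finset.single_le_sum (f := fun S => ∑ p ∈ S, (f S p).natAbs) (fun _ _ => Nat.zero_le _)
        (mem_powerset.mpr hSB)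
    have h6 : |f S p| = ((f S p).natAbs : ℤ) := Int.abs_eq_natAbs _
    rw [h6]
    exact_mod_cast h4.trans h5
  · rw [h1 p hp, abs_zero]
    positivity

/-- the value of the auxiliary polynomial at integers `≡ 1 (mod d)` is divisible by `d ^ t` -/
lemma pow_dvd_sum (t : ℕ) (S : Finset (ℕ × ℕ)) (c : ℕ × ℕ → ℤ)
    (hc : ∀ a b : ℕ, a + b < t → ∑ p ∈ S, c p * ((p.1.choose a : ℤ) * (p.2.choose b : ℤ)) = 0)
    (X Y d : ℤ) (hX : d ∣ X) (hY : d ∣ Y) :
    d ^ t ∣ ∑ p ∈ S, c p * ((X + 1) ^ p.1 * (Y + 1) ^ p.2) := by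
  classical
  obtain ⟨K, hK⟩ : ∃ K, ∀ p ∈ S, p.1 ≤ K ∧ p.2 ≤ K := by
    refine ⟨∑ p ∈ S, (p.1 + p.2), fun p hp => ?_⟩
    have := Finset.single_le_sum (f := fun p : ℕ × ℕ => p.1 + p.2) (fun _ _ => Nat.zero_le _) hp
    omega
  have exp : ∀ (Z : ℤ) (j : ℕ), j ≤ K → (Z + 1) ^ j = ∑ a ∈ range (K + 1), (j.choose a : ℤ) * Z ^ a := by
    intro Z j hj
    rw [add_pow]
    have : range (j + 1) ⊆ range (K + 1) := by
      intro x hx; rw [mem_range] at *; omega
    rw [← Finset.sum_subset this]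
    · apply Finset.sum_congr rfl
      intro a _
      rw [one_pow]; ring
    · intro a _ ha
      rw [mem_range] at ha
      rw [Nat.choose_eq_zero_of_lt (by omega)]
      simp
  have h1 : ∑ p ∈ S, c p * ((X + 1) ^ p.1 * (Y + 1) ^ p.2) =
      ∑ a ∈ range (K + 1), ∑ b ∈ range (K + 1), (X ^ a * Y ^ b) *
        ∑ p ∈ S, c p * ((p.1.choose a : ℤ) * (p.2.choose b : ℤ)) := by
    have h2 : ∀ p ∈ S, c p * ((X + 1) ^ p.1 * (Y + 1) ^ p.2) =
        ∑ a ∈ range (K + 1), ∑ b ∈ range (K + 1), (X ^ a * Y ^ b) *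
          (c p * ((p.1.choose a : ℤ) * (p.2.choose b : ℤ))) := by
      intro p hp
      rw [exp X p.1 (hK p hp).1, exp Y p.2 (hK p hp).2, Finset.sum_mul_sum, Finset.mul_sum]
      apply Finset.sum_congr rfl
      intro a _
      rw [Finset.mul_sum]
      apply Finset.sum_congr rfl
      intro b _
      ring
    rw [Finset.sum_congr rfl h2, Finset.sum_comm]
    apply Finset.sum_congr rfl
    intro a _
    rw [Finset.sum_comm]
    apply Finset.sum_congr rfl
    intro b _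
    rw [Finset.mul_sum]
  rw [h1]
  apply Finset.dvd_sum
  intro a _
  apply Finset.dvd_sum
  intro b _
  by_cases hab : a + b < t
  · rw [hc a b hab, mul_zero]
    exact dvd_zero _
  · push Not at hab
    apply Dvd.dvd.mul_right
    calc d ^ t ∣ d ^ (a + b) := pow_dvd_pow d hab
      _ = d ^ a * d ^ b := pow_add d a b
      _ ∣ X ^ a * Y ^ b := mul_dvd_mul (pow_dvd_pow_of_dvd hX a) (pow_dvd_pow_of_dvd hY b)

end Pool.Agent.H95.Hyp
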