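import Mathlib

/-! Counting the monomials. -/

namespace Pool.Agent.H95.Hyp

open Finset

/-- the number of natural numbers in a real interval with nonnegative left end -/
lemma card_interval (U : ℕ) (A₁ A₂ : ℝ) (h1 : 0 ≤ A₁) (h2 : A₂ ≤ U) (P : ℕ → Prop)
    [DecidablePred P] (hP : ∀ u : ℕ, A₁ ≤ u → (u : ℝ) ≤ A₂ → P u) :
    A₂ - A₁ - 1 ≤ (((range (U + 1)).filter P).card : ℝ) := by
  by_cases hA : A₂ < 0
  · have : (0 : ℝ) ≤ (((range (U + 1)).filter P).card : ℝ) := by positivity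
    linarith
  push Not at hA
  have hsub : Icc ⌈A₁⌉₊ ⌊A₂⌋₊ ⊆ (range (U + 1)).filter P := by
    intro u hu
    rw [mem_Icc] at hu
    rw [mem_filter, mem_range]
    have hu2 : (u : ℝ) ≤ A₂ := (Nat.le_floor_iff hA).mp hu.2
    have hu1 : A₁ ≤ u := Nat.ceil_le.mp hu.1
    refine ⟨?_, hP u hu1 hu2⟩
    have : (u : ℝ) ≤ U := hu2.trans h2
    have : u ≤ U := by exact_mod_cast this
    omega
  have hcard := card_le_card hsub
  rw [Nat.card_Icc] at hcard
  have h3 : A₂ < ⌊A₂⌋₊ + 1 := Nat.lt_floor_add_one A₂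
  have h4 : (⌈A₁⌉₊ : ℝ) < A₁ + 1 := Nat.ceil_lt_add_one h1
  have h5 : (⌊A₂⌋₊ + 1 : ℝ) ≤ ((range (U + 1)).filter P).card + ⌈A₁⌉₊ := by
    have : ⌊A₂⌋₊ + 1 ≤ ((range (U + 1)).filter P).card + ⌈A₁⌉₊ := by omega
    exact_mod_cast this
  linarith

/-- a rowwise lower bound for the number of lattice points -/
lemma card_rows (J U J₁ : ℕ) (hJ : J₁ ≤ J) (P : ℕ × ℕ → Prop) [DecidablePred P]
    (a b : ℝ) (hrow : ∀ j : ℕ, j ≤ J₁ → a - b * j ≤
      (((range (U + 1)).filter (fun u => P (j, u))).card : ℝ)) :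
    (J₁ + 1) * a - b * (J₁ * (J₁ + 1) / 2) ≤
      (((range (J + 1) ×ˢ range (U + 1)).filter P).card : ℝ) := by
  have h1 : (((range (J + 1) ×ˢ range (U + 1)).filter P).card) =
      ∑ j ∈ range (J + 1), ((range (U + 1)).filter (fun u => P (j, u))).card := by
    rw [card_filter, sum_product]
    apply Finset.sum_congr rfl
    intro j _
    rw [card_filter]
  have h2 : ∑ j ∈ range (J₁ + 1), (a - b * j) ≤
      ∑ j ∈ range (J₁ + 1), (((range (U + 1)).filter (fun u => P (j, u))).card : ℝ) := by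
    apply Finset.sum_le_sum
    intro j hj
    rw [mem_range] at hj
    exact hrow j (by omega)
  have h3 : ∑ j ∈ range (J₁ + 1), (((range (U + 1)).filter (fun u => P (j, u))).card : ℝ) ≤
      ∑ j ∈ range (J + 1), (((range (U + 1)).filter (fun u => P (j, u))).card : ℝ) := by
    apply Finset.sum_le_sum_of_subset_of_nonneg
    · intro x hx; rw [mem_range] at *; omega
    · intro _ _ _; positivity
  have h4 : ∑ j ∈ range (J₁ + 1), (a - b * (j : ℝ)) = (J₁ + 1) * a - b * (J₁ * (J₁ + 1) / 2) := by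
    rw [Finset.sum_sub_distrib, ← Finset.mul_sum]
    have h5 : ∑ j ∈ range (J₁ + 1), (j : ℝ) = J₁ * (J₁ + 1) / 2 := by
      have := Finset.sum_range_id_mul_two (J₁ + 1)
      have h6 : ((∑ i ∈ range (J₁ + 1), i : ℕ) : ℝ) * 2 = (J₁ + 1) * J₁ := by
        have h7 : ((∑ i ∈ range (J₁ + 1), i) * 2 : ℕ) = (J₁ + 1) * J₁ := by
          rw [this]; simp
        exact_mod_cast h7
      push_cast at h6
      linarith
    rw [h5]
    simp
  rw [h1]
  push_cast
  linarith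

/-- the numerical inequality behind the dimension count -/
lemma num_ineq (E t J₁ : ℕ) (hE : 1 ≤ E) (ht : t = 20 * E ^ 2) (lam th : ℝ)
    (hlam : 1 / (2 * E) ≤ lam) (hth : th ≤ (1 - 1 / (2 * E)) * lam ^ 2)
    (hJ1 : (J₁ : ℝ) ≤ t / lam) (hJ2 : t / lam < J₁ + 1) (b : ℝ) (hb : b ≤ 1) :
    (t * (t + 1) : ℝ) / 2 < (J₁ + 1) * (lam * t - b - 1) - th * (J₁ * (J₁ + 1) / 2) := by
  have hE' : (1 : ℝ) ≤ E := by exact_mod_cast hE
  have hlam0 : 0 < lam := lt_of_lt_of_le (by positivity) hlam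
  have htE : (t : ℝ) = 20 * E ^ 2 := by rw [ht]; push_cast; ring
  have ht0 : (0 : ℝ) < t := by rw [htE]; positivity
  have hJ0 : (0 : ℝ) ≤ J₁ := by positivity
  -- bracket
  have h1 : th * J₁ ≤ (1 - 1 / (2 * E)) * lam * t := by
    have hnn : 0 ≤ (1 - 1 / (2 * (E : ℝ))) := by
      rw [sub_nonneg, div_le_one (by positivity)]; linarith
    calc th * J₁ ≤ ((1 - 1 / (2 * E)) * lam ^ 2) * (t / lam) := by
          apply mul_le_mul hth hJ1 hJ0 (by positivity)
      _ = (1 - 1 / (2 * E)) * lam * t := by field_simp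
  have hEl : 1 ≤ 2 * E * lam := by
    rw [div_le_iff₀ (by positivity)] at hlam
    linarith
  have h2 : lam * t / 2 + lam * t / (4 * E) - 2 ≤ lam * t - b - 1 - th * J₁ / 2 := by
    have : (1 - 1 / (2 * (E : ℝ))) * lam * t / 2 = lam * t / 2 - lam * t / (4 * E) := by
      field_simp
      ring
    linarith
  have h3 : 0 ≤ lam * t / 2 + lam * t / (4 * E) - 2 := by
    have : 0 ≤ lam * t / (4 * E) := by positivity
    have h4 : 4 ≤ lam * t := by
      rw [htE]
      nlinarith [mul_le_mul hEl hE' (by norm_num) (by positivity)]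
    linarith
  have h5 : (t / lam) * (lam * t / 2 + lam * t / (4 * E) - 2) ≤
      (J₁ + 1) * (lam * t - b - 1 - th * J₁ / 2) := by
    apply mul_le_mul hJ2.le h2 h3 (by positivity)
  have h6 : (t / lam) * (lam * t / 2 + lam * t / (4 * E) - 2) =
      t ^ 2 / 2 + t ^ 2 / (4 * E) - 2 * t / lam := by
    field_simp
  have h7 : 2 * (t : ℝ) / lam ≤ 4 * E * t := by
    rw [div_le_iff₀ hlam0]
    nlinarith
  have h8 : 4 * E * t + t / 2 < (t : ℝ) ^ 2 / (4 * E) := by
    have : (t : ℝ) ^ 2 / (4 * E) = 5 * E * t := by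
      rw [htE]; field_simp; ring
    rw [this]
    have : (t : ℝ) / 2 < E * t := by nlinarith
    linarith
  have h9 : (J₁ + 1) * (lam * t - b - 1) - th * (J₁ * (J₁ + 1) / 2) =
      (J₁ + 1) * (lam * t - b - 1 - th * J₁ / 2) := by ring
  rw [h9]
  have h10 : (t * (t + 1) : ℝ) / 2 = t ^ 2 / 2 + t / 2 := by ring
  rw [h10]
  linarith

end Pool.Agent.H95.Hyp
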