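import Mathlib

/-! Non-vanishing at `2` and at infinity, and the count of roots. -/

namespace Pool.Agent.H95.Hyp

open Finset

/-- a vanishing sum has two terms of nearly the same 2-adic size -/
lemma two_adic (S : Finset (ℕ × ℕ)) (c : ℕ × ℕ → ℤ) (H G : ℕ) (hH : H < 2 ^ G)
    (hcH : ∀ p, |c p| ≤ H) (n M : ℕ) (k : ℤ) (hk : Odd k)
    (h0 : ∑ p ∈ S, c p * ((2 ^ n * k) ^ p.1 * (-2 ^ M) ^ p.2) = 0)
    (hne : ∃ p ∈ S, c p ≠ 0) :
    ∃ p ∈ S, ∃ p' ∈ S, p ≠ p' ∧ n * p.1 + M * p.2 ≤ n * p'.1 + M * p'.2 ∧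
      n * p'.1 + M * p'.2 < n * p.1 + M * p.2 + G := by
  classical
  set T := S.filter (fun p => c p ≠ 0) with hT
  have hTne : T.Nonempty := by
    obtain ⟨p, hp, hp2⟩ := hne
    exact ⟨p, by rw [hT, mem_filter]; exact ⟨hp, hp2⟩⟩
  obtain ⟨p₀, hp₀, hmin⟩ := T.exists_min_image (fun p => n * p.1 + M * p.2) hTne
  rw [hT, mem_filter] at hp₀
  by_contra hcon
  push Not at hcon
  have hbig : ∀ p ∈ S, p ≠ p₀ → (2 : ℤ) ^ (n * p₀.1 + M * p₀.2 + G) ∣
      c p * ((2 ^ n * k) ^ p.1 * (-2 ^ M) ^ p.2) := by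
    intro p hp hpp
    by_cases hc : c p = 0
    · rw [hc, zero_mul]; exact dvd_zero _
    · have h1 := hmin p (by rw [hT, mem_filter]; exact ⟨hp, hc⟩)
      have h2 := hcon p₀ hp₀.1 p hp (Ne.symm hpp) h1
      apply Dvd.dvd.mul_left
      calc (2 : ℤ) ^ (n * p₀.1 + M * p₀.2 + G) ∣ 2 ^ (n * p.1 + M * p.2) := pow_dvd_pow _ h2
        _ = (2 ^ n) ^ p.1 * (2 ^ M) ^ p.2 := by rw [pow_add, pow_mul, pow_mul]
        _ ∣ (2 ^ n * k) ^ p.1 * (-2 ^ M) ^ p.2 := by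
          apply mul_dvd_mul
          · exact pow_dvd_pow_of_dvd (Dvd.intro _ rfl) _
          · exact pow_dvd_pow_of_dvd ((dvd_neg).mpr dvd_rfl) _
  have h3 : (2 : ℤ) ^ (n * p₀.1 + M * p₀.2 + G) ∣
      c p₀ * ((2 ^ n * k) ^ p₀.1 * (-2 ^ M) ^ p₀.2) := by
    rw [← Finset.add_sum_erase S _ hp₀.1] at h0
    have h4 : (2 : ℤ) ^ (n * p₀.1 + M * p₀.2 + G) ∣
        ∑ p ∈ S.erase p₀, c p * ((2 ^ n * k) ^ p.1 * (-2 ^ M) ^ p.2) := by
      apply Finset.dvd_sum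
      intro p hp
      rw [mem_erase] at hp
      exact hbig p hp.2 hp.1
    have h5 : c p₀ * ((2 ^ n * k) ^ p₀.1 * (-2 ^ M) ^ p₀.2) =
        -∑ p ∈ S.erase p₀, c p * ((2 ^ n * k) ^ p.1 * (-2 ^ M) ^ p.2) := by linarith
    rw [h5]
    exact (dvd_neg).mpr h4
  have h6 : c p₀ * ((2 ^ n * k) ^ p₀.1 * (-2 ^ M) ^ p₀.2) =
      2 ^ (n * p₀.1 + M * p₀.2) * (c p₀ * (k ^ p₀.1 * (-1) ^ p₀.2)) := by
    rw [neg_pow ((2 : ℤ) ^ M), mul_pow, pow_add, pow_mul, pow_mul]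
    ring
  rw [h6, pow_add] at h3
  have h7 : (2 : ℤ) ^ G ∣ c p₀ * (k ^ p₀.1 * (-1) ^ p₀.2) :=
    Int.dvd_of_mul_dvd_mul_left (by positivity) h3
  have h8 : IsCoprime ((2 : ℤ) ^ G) (k ^ p₀.1 * (-1) ^ p₀.2) := by
    apply IsCoprime.pow_left
    apply IsCoprime.mul_right
    · apply IsCoprime.pow_right
      obtain ⟨r, hr⟩ := hk
      exact ⟨-r, 1, by rw [hr]; ring⟩
    · apply IsCoprime.pow_right
      exact ⟨0, -1, by ring⟩
  have h9 : (2 : ℤ) ^ G ∣ c p₀ := h8.dvd_of_dvd_mul_right h7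
  apply hp₀.2
  apply Int.eq_zero_of_abs_lt_dvd h9
  calc |c p₀| ≤ H := hcH p₀
    _ < 2 ^ G := by exact_mod_cast hH

/-- a vanishing sum has two terms of nearly the same archimedean size -/
lemma arch (S : Finset (ℕ × ℕ)) (c : ℕ × ℕ → ℤ) (H G : ℕ) (hH : S.card * H < 2 ^ G)
    (hcH : ∀ p, |c p| ≤ H) (X Y : ℕ) (hX : 1 ≤ X) (hY : 1 ≤ Y) (x y : ℤ) (hx : |x| = X)
    (hy : |y| = Y) (h0 : ∑ p ∈ S, c p * (x ^ p.1 * y ^ p.2) = 0)
    (hne : ∃ p ∈ S, c p ≠ 0) :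
    ∃ p ∈ S, ∃ p' ∈ S, p ≠ p' ∧ X ^ p.1 * Y ^ p.2 ≤ X ^ p'.1 * Y ^ p'.2 ∧
      X ^ p'.1 * Y ^ p'.2 < 2 ^ G * (X ^ p.1 * Y ^ p.2) := by
  classical
  set T := S.filter (fun p => c p ≠ 0) with hT
  have hTne : T.Nonempty := by
    obtain ⟨p, hp, hp2⟩ := hne
    exact ⟨p, by rw [hT, mem_filter]; exact ⟨hp, hp2⟩⟩
  obtain ⟨p₀, hp₀, hmax⟩ := T.exists_max_image (fun p => X ^ p.1 * Y ^ p.2) hTne
  rw [hT, mem_filter] at hp₀
  by_contra hcon
  push Not at hcon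
  set W : ℕ := X ^ p₀.1 * Y ^ p₀.2 with hW
  have hWpos : 0 < W := by rw [hW]; positivity
  have habs : ∀ p : ℕ × ℕ, |c p * (x ^ p.1 * y ^ p.2)| = |c p| * ((X ^ p.1 * Y ^ p.2 : ℕ) : ℤ) := by
    intro p
    rw [abs_mul, abs_mul, abs_pow, abs_pow, hx, hy]
    push_cast
    rfl
  have hbig : ∀ p ∈ S.erase p₀, 2 ^ G * |c p * (x ^ p.1 * y ^ p.2)| ≤ (H : ℤ) * W := by
    intro p hp
    rw [mem_erase] at hp
    rw [habs]
    by_cases hc : c p = 0
    · rw [hc, abs_zero, zero_mul, mul_zero]; positivity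
    · have h1 := hmax p (by rw [hT, mem_filter]; exact ⟨hp.2, hc⟩)
      have h2 := hcon p hp.2 p₀ hp₀.1 hp.1 h1
      have h3 : (2 ^ G * ((X ^ p.1 * Y ^ p.2 : ℕ) : ℤ)) ≤ W := by exact_mod_cast h2
      calc 2 ^ G * (|c p| * ((X ^ p.1 * Y ^ p.2 : ℕ) : ℤ))
          = |c p| * (2 ^ G * ((X ^ p.1 * Y ^ p.2 : ℕ) : ℤ)) := by ring
        _ ≤ H * W := mul_le_mul (hcH p) h3 (by positivity) (by positivity)
  have hsum : c p₀ * (x ^ p₀.1 * y ^ p₀.2) =
      -∑ p ∈ S.erase p₀, c p * (x ^ p.1 * y ^ p.2) := by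
    rw [← Finset.add_sum_erase S _ hp₀.1] at h0
    linarith
  have h4 : (W : ℤ) ≤ |c p₀ * (x ^ p₀.1 * y ^ p₀.2)| := by
    rw [habs]
    have : 1 ≤ |c p₀| := Int.one_le_abs hp₀.2
    calc (W : ℤ) = 1 * W := by ring
      _ ≤ |c p₀| * W := by gcongr
  have h5 : 2 ^ G * |c p₀ * (x ^ p₀.1 * y ^ p₀.2)| ≤ (S.card * H : ℕ) * (W : ℤ) := by
    rw [hsum, abs_neg]
    calc 2 ^ G * |∑ p ∈ S.erase p₀, c p * (x ^ p.1 * y ^ p.2)|
        ≤ 2 ^ G * ∑ p ∈ S.erase p₀, |c p * (x ^ p.1 * y ^ p.2)| := by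
          gcongr
          exact Finset.abs_sum_le_sum_abs _ _
      _ = ∑ p ∈ S.erase p₀, 2 ^ G * |c p * (x ^ p.1 * y ^ p.2)| := by rw [Finset.mul_sum]
      _ ≤ ∑ p ∈ S.erase p₀, (H : ℤ) * W := Finset.sum_le_sum hbig
      _ = (S.erase p₀).card * ((H : ℤ) * W) := by rw [Finset.sum_const, nsmul_eq_mul]
      _ ≤ S.card * ((H : ℤ) * W) := by
          have : (S.erase p₀).card ≤ S.card := Finset.card_le_card (Finset.erase_subset _ _)
          gcongr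
      _ = (S.card * H : ℕ) * (W : ℤ) := by push_cast; ring
  have h6 : ((S.card * H : ℕ) : ℤ) * W < 2 ^ G * W := by
    have : ((S.card * H : ℕ) : ℤ) < 2 ^ G := by exact_mod_cast hH
    have hW' : (0 : ℤ) < W := by exact_mod_cast hWpos
    exact mul_lt_mul_of_pos_right this hW'
  have h7 : 2 ^ G * (W : ℤ) ≤ 2 ^ G * |c p₀ * (x ^ p₀.1 * y ^ p₀.2)| := by gcongr
  linarith

/-- the relation does not hold identically -/
lemma nonvanish (J U H M : ℕ) (hM : H < 2 ^ M) (c : ℕ × ℕ → ℤ)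
    (hc : ∃ p ∈ range (J + 1) ×ˢ range (U + 1), c p ≠ 0) (hcH : ∀ p, |c p| ≤ H) :
    ∑ p ∈ range (J + 1) ×ˢ range (U + 1),
      c p * ((2 ^ (M * (U + 2)) * 1) ^ p.1 * (-2 ^ M) ^ p.2) ≠ 0 := by
  intro h1
  obtain ⟨p₁, hp₁, hcp₁⟩ := hc
  obtain ⟨p, hp, p', hp', hpp, h2, h3⟩ := two_adic _ c H M hM hcH (M * (U + 2)) M 1
    odd_one h1 ⟨p₁, hp₁, hcp₁⟩
  rw [mem_product, mem_range, mem_range] at hp hp'
  have hM0 : 0 < M := by omega
  rcases lt_trichotomy p.1 p'.1 with h | h | h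
  · have h5 : M * (U + 2) * (p.1 + 1) ≤ M * (U + 2) * p'.1 := Nat.mul_le_mul_left _ h
    have h6 : M * p.2 ≤ M * U := Nat.mul_le_mul_left _ (by omega)
    nlinarith
  · rcases lt_trichotomy p.2 p'.2 with h' | h' | h'
    · have h5 : M * (p.2 + 1) ≤ M * p'.2 := Nat.mul_le_mul_left _ h'
      rw [h] at h3
      nlinarith
    · exact hpp (Prod.ext h h')
    · have h5 : M * (p'.2 + 1) ≤ M * p.2 := Nat.mul_le_mul_left _ h'
      rw [h] at h2
      nlinarith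
  · have h5 : M * (U + 2) * (p'.1 + 1) ≤ M * (U + 2) * p.1 := Nat.mul_le_mul_left _ h
    have h6 : M * p'.2 ≤ M * U := Nat.mul_le_mul_left _ (by omega)
    nlinarith

/-- the relations come from a finite family of nonzero polynomials -/
lemma finite_family (J U H : ℕ) : ∃ Ps : Finset (MvPolynomial (Fin 2) ℤ), 0 ∉ Ps ∧
    ∀ c : ℕ × ℕ → ℤ, (∃ p ∈ range (J + 1) ×ˢ range (U + 1), c p ≠ 0) → (∀ p, |c p| ≤ H) →
      ∃ P ∈ Ps, ∀ z w : ℤ, MvPolynomial.eval ![z, w] P =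
        ∑ p ∈ range (J + 1) ×ˢ range (U + 1), c p * ((1 - z) ^ p.1 * (-w) ^ p.2) := by
  classical
  let Box := range (J + 1) ×ˢ range (U + 1)
  let P : (Box → ℤ) → MvPolynomial (Fin 2) ℤ := fun f =>
    ∑ p : Box, MvPolynomial.C (f p) * ((1 - MvPolynomial.X 0) ^ p.1.1 *
      (-MvPolynomial.X 1) ^ p.1.2)
  let Fs : Finset (Box → ℤ) := Fintype.piFinset (fun _ => Icc (-(H : ℤ)) H)
  have heval : ∀ (f : Box → ℤ) (z w : ℤ), MvPolynomial.eval ![z, w] (P f) =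
      ∑ p : Box, f p * ((1 - z) ^ p.1.1 * (-w) ^ p.1.2) := by
    intro f z w
    simp only [P, map_sum, map_mul, map_pow, map_sub, map_one, map_neg, MvPolynomial.eval_C,
      MvPolynomial.eval_X]
    simp
  have hc : ∀ c : ℕ × ℕ → ℤ, ∀ z w : ℤ, MvPolynomial.eval ![z, w] (P (fun p => c p.1)) =
        ∑ p ∈ range (J + 1) ×ˢ range (U + 1), c p * ((1 - z) ^ p.1 * (-w) ^ p.2) := by
    intro c z w
    rw [heval]
    exact Finset.sum_coe_sort (range (J + 1) ×ˢ range (U + 1))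
        (fun p => c p * ((1 - z) ^ p.1 * (-w) ^ p.2))
  refine ⟨(Fs.image P).erase 0, Finset.notMem_erase _ _, ?_⟩
  intro c hc1 hc2
  refine ⟨P (fun p => c p.1), ?_, hc c⟩
  rw [mem_erase]
  constructor
  · intro h0
    have h1 := hc c (1 - 2 ^ (H * (U + 2))) (2 ^ H)
    rw [h0, map_zero] at h1
    apply nonvanish J U H H Nat.lt_two_pow_self c hc1 hc2
    rw [h1]
    apply Finset.sum_congr rfl
    intro p _
    congr 2
    ring
  · rw [mem_image]
    refine ⟨fun p => c p.1, ?_, rfl⟩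
    simp only [Fs, Fintype.mem_piFinset, mem_Icc]
    intro p
    exact abs_le.mp (hc2 p.1)

/-- few integers are roots of the specialised polynomials -/
lemma count_roots (J U H M : ℕ) (hM : H < 2 ^ M) :
    ∃ F : Finset ℤ, F.card ≤ (2 * H + 1) ^ ((J + 1) * (U + 1)) * J ∧
      ∀ z : ℤ, (∃ c : ℕ × ℕ → ℤ, (∃ p ∈ range (J + 1) ×ˢ range (U + 1), c p ≠ 0) ∧
        (∀ p, |c p| ≤ H) ∧
        ∑ p ∈ range (J + 1) ×ˢ range (U + 1), c p * (z ^ p.1 * (-2 ^ M) ^ p.2) = 0) → z ∈ F := by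
  classical
  let Box := range (J + 1) ×ˢ range (U + 1)
  let Fs : Finset (Box → ℤ) := Fintype.piFinset (fun _ => Icc (-(H : ℤ)) H)
  let P : (Box → ℤ) → Polynomial ℤ := fun f =>
    ∑ p : Box, Polynomial.C (f p * (-2 ^ M) ^ p.1.2) * Polynomial.X ^ p.1.1
  refine ⟨Fs.biUnion (fun f => (P f).roots.toFinset), ?_, ?_⟩
  · calc (Fs.biUnion (fun f => (P f).roots.toFinset)).card
        ≤ Fs.card * J := by
          apply Finset.card_biUnion_le_card_mul
          intro f _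
          calc (P f).roots.toFinset.card ≤ Multiset.card (P f).roots := Multiset.toFinset_card_le _
            _ ≤ (P f).natDegree := Polynomial.card_roots' _
            _ ≤ J := by
              apply Polynomial.natDegree_sum_le_of_forall_le
              intro p _
              have hp := p.2
              have : p.1.1 ≤ J := by
                have := (mem_product.mp hp).1
                rw [mem_range] at this; omega
              exact (Polynomial.natDegree_C_mul_X_pow_le _ _).trans this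
      _ = (2 * H + 1) ^ ((J + 1) * (U + 1)) * J := by
          have h1 : Fs.card = (2 * H + 1) ^ ((J + 1) * (U + 1)) := by
            simp only [Fs, Fintype.card_piFinset, Int.card_Icc]
            rw [Finset.prod_const, Finset.card_univ, Fintype.card_coe]
            simp only [Box, card_product, card_range]
            congr 1
            omega
          rw [h1]
  · rintro z ⟨c, ⟨p₁, hp₁, hcp₁⟩, hcH, h0⟩
    rw [mem_biUnion]
    let f : Box → ℤ := fun p => c p.1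
    have heval : ∀ w : ℤ, (P f).eval w =
        ∑ p ∈ range (J + 1) ×ˢ range (U + 1), c p * (w ^ p.1 * (-2 ^ M) ^ p.2) := by
      intro w
      simp only [P, f]
      rw [Polynomial.eval_finsetSum]
      rw [← Finset.sum_coe_sort (range (J + 1) ×ˢ range (U + 1))
        (fun p => c p * (w ^ p.1 * (-2 ^ M) ^ p.2))]
      apply Finset.sum_congr rfl
      intro p _
      rw [Polynomial.eval_mul, Polynomial.eval_C, Polynomial.eval_pow, Polynomial.eval_X]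
      ring
    refine ⟨f, ?_, ?_⟩
    · simp only [Fs, Fintype.mem_piFinset, mem_Icc]
      intro p
      exact abs_le.mp (hcH p.1)
    · rw [Multiset.mem_toFinset, Polynomial.mem_roots']
      refine ⟨?_, ?_⟩
      · intro hP
        have h1 := heval (2 ^ (M * (U + 2)) * 1)
        rw [hP, Polynomial.eval_zero] at h1
        exact nonvanish J U H M hM c ⟨p₁, hp₁, hcp₁⟩ hcH h1.symm
      · rw [Polynomial.IsRoot, heval]
        exact h0

end Pool.Agent.H95.Hyp
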