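import Pool.Agent.H95.Hyp.Rel
import Pool.Agent.H95.Hyp.Places

/-! Assembly of the hyperbola law. -/

namespace Pool.Agent.H95.Hyp

open Finset Real

/-- two nearly equal weights give a rational approximation -/
lemma near (α M G : ℝ) (hα : 0 ≤ α) (hM : 0 < M) (hG : G ≤ M) (p p' : ℕ × ℕ) (hne : p ≠ p')
    (J : ℕ) (hp : p.1 ≤ J) (hp' : p'.1 ≤ J) (h1 : α * p.1 + M * p.2 ≤ α * p'.1 + M * p'.2)
    (h2 : α * p'.1 + M * p'.2 < α * p.1 + M * p.2 + G) :
    ∃ r q : ℕ, 1 ≤ q ∧ q ≤ J ∧ |(q : ℝ) * α - r * M| ≤ G := by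
  obtain ⟨a, u⟩ := p
  obtain ⟨a', u'⟩ := p'
  simp only at hp hp' h1 h2
  rcases lt_trichotomy a a' with h | h | h
  · obtain ⟨q, rfl⟩ := Nat.exists_eq_add_of_lt h
    have hu : u' ≤ u := by
      by_contra hcon
      push Not at hcon
      have h3 : (u : ℝ) + 1 ≤ u' := by exact_mod_cast hcon
      have h4 : M * (u + 1) ≤ M * u' := by gcongr
      push_cast at h2
      have h5 : 0 ≤ α * (q + 1) := by positivity
      nlinarith
    obtain ⟨r, rfl⟩ := Nat.exists_eq_add_of_le hu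
    refine ⟨r, q + 1, by omega, by omega, ?_⟩
    push_cast at h1 h2 ⊢
    rw [abs_le]
    constructor <;> nlinarith
  · exfalso
    subst h
    apply hne
    have h3 : u = u' := by
      rcases lt_trichotomy u u' with h | h | h
      · have h3 : (u : ℝ) + 1 ≤ u' := by exact_mod_cast h
        have h4 : M * (u + 1) ≤ M * u' := by gcongr
        nlinarith
      · exact h
      · have h3 : (u' : ℝ) + 1 ≤ u := by exact_mod_cast h
        have h4 : M * (u' + 1) ≤ M * u := by gcongr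
        nlinarith
    rw [h3]
  · obtain ⟨q, rfl⟩ := Nat.exists_eq_add_of_lt h
    have hu : u ≤ u' := by
      by_contra hcon
      push Not at hcon
      have h3 : (u' : ℝ) + 1 ≤ u := by exact_mod_cast hcon
      have h4 : M * (u' + 1) ≤ M * u := by gcongr
      push_cast at h1
      have h5 : 0 ≤ α * (q + 1) := by positivity
      nlinarith
    obtain ⟨r, rfl⟩ := Nat.exists_eq_add_of_le hu
    refine ⟨r, q + 1, by omega, by omega, ?_⟩
    push_cast at h1 h2 ⊢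
    rw [abs_le]
    constructor <;> nlinarith

/-- both cofactors are congruent to `1` modulo the same power of two -/
lemma val_symm {M d e : ℕ} (hd : 1 < d) (he : 1 < e) (hM : d * e = 2 ^ M + 1) :
    padicValNat 2 (e - 1) = padicValNat 2 (d - 1) := by
  obtain ⟨n, k, hk, hdk⟩ := Nat.exists_eq_pow_mul_and_not_dvd (by omega : d - 1 ≠ 0) 2 (by norm_num)
  have hk0 : k ≠ 0 := by rintro rfl; exact hk (dvd_zero _)
  have hval : padicValNat 2 (d - 1) = n := by
    rw [hdk, padicValNat.mul (by positivity) hk0, padicValNat.prime_pow,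
      padicValNat.eq_zero_of_not_dvd hk, add_zero]
  have hnM : n < M := by
    have h1 : 2 ^ n ≤ d - 1 := by
      rw [hdk]; exact Nat.le_mul_of_pos_right _ (Nat.pos_of_ne_zero hk0)
    have h2 : d * 2 ≤ 2 ^ M + 1 := by rw [← hM]; exact Nat.mul_le_mul_left _ he
    have h3 : 2 ^ n < 2 ^ M := by omega
    exact (Nat.pow_lt_pow_iff_right (by norm_num)).mp h3
  obtain ⟨s, rfl⟩ := Nat.exists_eq_add_of_lt hnM
  have hd' : d = 2 ^ n * k + 1 := by omega
  obtain ⟨f, rfl⟩ : ∃ f, e = f + 1 := ⟨e - 1, by omega⟩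
  have h1 : f + (f + 1) * (2 ^ n * k) = 2 ^ (n + s + 1) := by
    rw [hd'] at hM
    have : (2 ^ n * k + 1) * (f + 1) = (f + (f + 1) * (2 ^ n * k)) + 1 := by ring
    omega
  have h2 : 2 ^ n ∣ f := by
    have h3 : 2 ^ n ∣ (f + 1) * (2 ^ n * k) := Dvd.dvd.mul_left (Dvd.intro _ rfl) _
    have h4 : 2 ^ n ∣ f + (f + 1) * (2 ^ n * k) := by
      rw [h1, add_assoc, pow_add]; exact Dvd.intro _ rfl
    exact (Nat.dvd_add_left h3).mp h4
  obtain ⟨k', hk'⟩ := h2
  have h3 : k' + (f + 1) * k = 2 ^ (s + 1) := by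
    have h4 : 2 ^ n * (k' + (f + 1) * k) = 2 ^ n * 2 ^ (s + 1) := by
      calc 2 ^ n * (k' + (f + 1) * k) = 2 ^ n * k' + (f + 1) * (2 ^ n * k) := by ring
        _ = f + (f + 1) * (2 ^ n * k) := by rw [← hk']
        _ = 2 ^ (n + s + 1) := h1
        _ = 2 ^ n * 2 ^ (s + 1) := by rw [add_assoc, pow_add]
    exact Nat.eq_of_mul_eq_mul_left (by positivity) h4
  have hodd : ¬ 2 ∣ (f + 1) := by
    intro h5
    have h6 : 2 ∣ d * (f + 1) := Dvd.dvd.mul_left h5 _
    rw [hM, pow_succ] at h6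
    omega
  have hk'2 : ¬ 2 ∣ k' := by
    intro h5
    have h6 : 2 ∣ k' + (f + 1) * k := by rw [h3, pow_succ]; exact Dvd.intro_left _ rfl
    have h7 : 2 ∣ (f + 1) * k := (Nat.dvd_add_right h5).mp h6
    rcases (Nat.Prime.dvd_mul Nat.prime_two).mp h7 with h8 | h8
    · exact hodd h8
    · exact hk h8
  have hk'0 : k' ≠ 0 := by rintro rfl; exact hk'2 (dvd_zero _)
  rw [hval]
  have h9 : f + 1 - 1 = 2 ^ n * k' := by omega
  rw [h9, padicValNat.mul (by positivity) hk'0, padicValNat.prime_pow,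
      padicValNat.eq_zero_of_not_dvd hk'2, add_zero]

/-- structure of an exceptional factorisation with `d ≤ e` -/
theorem half (E : ℕ) (hE : 1 ≤ E) : ∃ (C M₁ : ℕ) (Ps : Finset (MvPolynomial (Fin 2) ℤ)), 0 ∉ Ps ∧
    ∀ M : ℕ, M₁ ≤ M →
    ∃ F : Finset ℤ, F.card ≤ C ∧ ∀ d e : ℕ, 1 < d → d ≤ e → d * e = 2 ^ M + 1 →
    (1 + 1 / (E : ℝ)) * (logb 2 d * logb 2 e) < padicValNat 2 (d - 1) * M →
    (∃ P ∈ Ps, MvPolynomial.eval ![(d : ℤ), 2 ^ M] P = 0) ∧ (1 - d : ℤ) ∈ F ∧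
    (∃ r q : ℕ, 1 ≤ q ∧ q ≤ C ∧ |(q : ℝ) * padicValNat 2 (d - 1) - r * M| ≤ C) ∧
    (∃ r q : ℕ, 1 ≤ q ∧ q ≤ C ∧ |(q : ℝ) * logb 2 d - r * M| ≤ C) := by
  classical
  obtain ⟨J, U, H, M₀, hrel⟩ := aux_relation E hE
  set Box := range (J + 1) ×ˢ range (U + 1) with hBox
  obtain ⟨G, hG⟩ : ∃ G, G = Box.card * H + H := ⟨_, rfl⟩
  have hG1 : H < 2 ^ G := lt_of_le_of_lt (by omega) Nat.lt_two_pow_self
  have hG2 : Box.card * H < 2 ^ G := lt_of_le_of_lt (by omega) Nat.lt_two_pow_self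
  obtain ⟨Ps, hPs0, hPs⟩ := finite_family J U H
  refine ⟨(2 * H + 1) ^ ((J + 1) * (U + 1)) * J + G + J, M₀ + G + 1, Ps, hPs0, ?_⟩
  intro M hM1
  have hHM : H < 2 ^ M := lt_of_le_of_lt (by omega : H ≤ M) Nat.lt_two_pow_self
  obtain ⟨F, hF, hFz⟩ := count_roots J U H M hHM
  refine ⟨F, by omega, ?_⟩
  intro d e hd hde hde2 hexc
  obtain ⟨n, k, hk, hdk⟩ := Nat.exists_eq_pow_mul_and_not_dvd (by omega : d - 1 ≠ 0) 2 (by norm_num)
  have hk0 : k ≠ 0 := by rintro rfl; exact hk (dvd_zero _)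
  have hval : padicValNat 2 (d - 1) = n := by
    rw [hdk, padicValNat.mul (by positivity) hk0, padicValNat.prime_pow,
      padicValNat.eq_zero_of_not_dvd hk, add_zero]
  rw [hval] at hexc ⊢
  obtain ⟨c, hc1, hc2, hc3⟩ := hrel M (by omega) d e hd hde hde2 n ⟨k, hdk⟩ hexc
  have hMr : (0 : ℝ) < M := by exact_mod_cast (by omega : 0 < M)
  have hGM : (G : ℝ) ≤ M := by exact_mod_cast (by omega : G ≤ M)
  have hd1 : (1 : ℤ) - d = 2 ^ n * (-k) := by
    have h : ((d - 1 : ℕ) : ℤ) = 2 ^ n * k := by exact_mod_cast hdk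
    rw [Nat.cast_sub (by omega)] at h
    push_cast at h
    linarith
  refine ⟨?_, hFz _ ⟨c, hc1, hc2, hc3⟩, ?_, ?_⟩
  · obtain ⟨P, hP, hP2⟩ := hPs c hc1 hc2
    exact ⟨P, hP, by rw [hP2]; exact hc3⟩
  · have hkodd : Odd (-(k : ℤ)) := by
      have h2 : Odd k := by rw [← Nat.not_even_iff_odd, even_iff_two_dvd]; exact hk
      have h3 : Odd (k : ℤ) := by exact_mod_cast h2
      exact h3.neg
    have h3 := hc3
    rw [hd1] at h3
    obtain ⟨p, hp, p', hp', hpp, h4, h5⟩ := two_adic Box c H G hG1 hc2 n M (-k) hkodd h3 hc1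
    rw [hBox, mem_product, mem_range, mem_range] at hp hp'
    obtain ⟨r, q, hq1, hq2, hq3⟩ := near n M G (by positivity) hMr hGM p p' hpp J (by omega)
      (by omega) (by exact_mod_cast h4) (by exact_mod_cast h5)
    refine ⟨r, q, hq1, by omega, hq3.trans ?_⟩
    have : G ≤ (2 * H + 1) ^ ((J + 1) * (U + 1)) * J + G + J := by omega
    exact_mod_cast this
  · have hX : 1 ≤ d - 1 := by omega
    have hY : 1 ≤ 2 ^ M := Nat.one_le_two_pow
    have hx : |(1 : ℤ) - d| = ((d - 1 : ℕ) : ℤ) := by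
      rw [Nat.cast_sub (by omega), abs_sub_comm, abs_of_nonneg]
      · simp
      · have : (1 : ℤ) < d := by exact_mod_cast hd
        linarith
    have hy : |-(2 : ℤ) ^ M| = ((2 ^ M : ℕ) : ℤ) := by
      rw [abs_neg, abs_pow, abs_two]; push_cast; rfl
    obtain ⟨p, hp, p', hp', hpp, h4, h5⟩ := arch Box c H G hG2 hc2 (d - 1) (2 ^ M) hX hY
      (1 - d) (-2 ^ M) hx hy hc3 hc1
    rw [hBox, mem_product, mem_range, mem_range] at hp hp'
    set L' := logb 2 ((d - 1 : ℕ) : ℝ) with hL'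
    have hXr : (0 : ℝ) < ((d - 1 : ℕ) : ℝ) := by exact_mod_cast (by omega : 0 < d - 1)
    have hlog : ∀ a b : ℕ, logb 2 (((d - 1 : ℕ) : ℝ) ^ a * ((2 : ℝ) ^ M) ^ b) = L' * a + M * b := by
      intro a b
      rw [logb_mul (by positivity) (by positivity), logb_pow, logb_pow, logb_pow,
        logb_self_eq_one one_lt_two]
      ring
    have h6 : L' * p.1 + M * p.2 ≤ L' * p'.1 + M * p'.2 := by
      rw [← hlog, ← hlog]
      apply logb_le_logb_of_le one_lt_two (by positivity)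
      exact_mod_cast h4
    have h7 : L' * p'.1 + M * p'.2 < L' * p.1 + M * p.2 + G := by
      have h8 : logb 2 ((2 : ℝ) ^ G * (((d - 1 : ℕ) : ℝ) ^ p.1 * ((2 : ℝ) ^ M) ^ p.2)) =
          L' * p.1 + M * p.2 + G := by
        rw [logb_mul (by positivity) (by positivity), hlog, logb_pow,
          logb_self_eq_one one_lt_two]
        ring
      rw [← hlog, ← h8]
      apply logb_lt_logb one_lt_two (by positivity)
      exact_mod_cast h5
    have hL0 : 0 ≤ L' := by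
      apply logb_nonneg one_lt_two
      exact_mod_cast hX
    obtain ⟨r, q, hq1, hq2, hq3⟩ := near L' M G hL0 hMr hGM p p' hpp J (by omega)
      (by omega) h6 h7
    refine ⟨r, q, hq1, by omega, ?_⟩
    have h9 : L' ≤ logb 2 d := by
      apply logb_le_logb_of_le one_lt_two hXr
      exact_mod_cast (by omega : d - 1 ≤ d)
    have h10 : logb 2 d ≤ L' + 1 := by
      have h11 : logb 2 (2 * ((d - 1 : ℕ) : ℝ)) = L' + 1 := by
        rw [logb_mul (by norm_num) hXr.ne', logb_self_eq_one one_lt_two]; ring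
      rw [← h11]
      apply logb_le_logb_of_le one_lt_two (by exact_mod_cast (by omega : 0 < d))
      exact_mod_cast (by omega : d ≤ 2 * (d - 1))
    have h12 : (q : ℝ) ≤ J := by exact_mod_cast hq2
    have hq0 : (0 : ℝ) ≤ q := by positivity
    have h13 : (G : ℝ) + J ≤ ((2 * H + 1) ^ ((J + 1) * (U + 1)) * J + G + J : ℕ) := by
      exact_mod_cast (by omega : G + J ≤ (2 * H + 1) ^ ((J + 1) * (U + 1)) * J + G + J)
    refine le_trans ?_ h13
    rw [abs_le] at hq3 ⊢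
    have h14 : q * L' ≤ q * logb 2 d := by gcongr
    have h15 : q * logb 2 d ≤ q * (L' + 1) := by gcongr
    constructor <;> nlinarith

end Pool.Agent.H95.Hyp
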