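import Pool.Agent.H95.Hyp.Coeff
import Pool.Agent.H95.Hyp.Count

/-! The auxiliary relation satisfied by an exceptional divisor. -/

namespace Pool.Agent.H95.Hyp

open Finset Real

/-- Elementary bounds on the logarithms. -/
lemma logs {M d e : ℕ} (hd : 1 < d) (hde : d ≤ e) (hM : d * e = 2 ^ M + 1) :
    (M : ℝ) ≤ logb 2 d + logb 2 e ∧ logb 2 d + logb 2 e ≤ M + 1 ∧ 2 * logb 2 d ≤ M + 1 ∧
      0 < logb 2 d := by
  have hd0 : (0 : ℝ) < d := by exact_mod_cast (by omega : 0 < d)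
  have he0 : (0 : ℝ) < e := by exact_mod_cast (by omega : 0 < e)
  have h1 : logb 2 d + logb 2 e = logb 2 ((2 : ℝ) ^ M + 1) := by
    rw [← logb_mul hd0.ne' he0.ne']
    congr 1
    exact_mod_cast hM
  have h2 : logb 2 ((2 : ℝ) ^ M) = M := by
    rw [logb_pow, logb_self_eq_one one_lt_two, mul_one]
  have h3 : logb 2 ((2 : ℝ) ^ (M + 1)) = M + 1 := by
    rw [logb_pow, logb_self_eq_one one_lt_two, mul_one]; push_cast; ring
  have h4 : logb 2 d ≤ logb 2 e := by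
    apply logb_le_logb_of_le one_lt_two hd0
    exact_mod_cast hde
  have h5 : logb 2 ((2 : ℝ) ^ M) ≤ logb 2 ((2 : ℝ) ^ M + 1) :=
    logb_le_logb_of_le one_lt_two (by positivity) (by linarith)
  have h6 : logb 2 ((2 : ℝ) ^ M + 1) ≤ logb 2 ((2 : ℝ) ^ (M + 1)) := by
    apply logb_le_logb_of_le one_lt_two (by positivity)
    rw [pow_succ]
    have : (1 : ℝ) ≤ 2 ^ M := one_le_pow₀ (by norm_num)
    linarith
  have h7 : 0 < logb 2 d := logb_pos one_lt_two (by exact_mod_cast hd)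
  refine ⟨by linarith, by linarith, by linarith, h7⟩

/-- the parameters -/
lemma params {E M d e n : ℕ} (hE : 1 ≤ E) (hM3 : 3 ≤ M) (hd : 1 < d) (hde : d ≤ e)
    (hM : d * e = 2 ^ M + 1) (hn : 2 ^ n ∣ d - 1)
    (hexc : (1 + 1 / (E : ℝ)) * (logb 2 d * logb 2 e) < n * M) :
    (n : ℝ) ≤ M ∧ (n : ℝ) ≤ logb 2 d ∧ logb 2 d ≤ M ∧ 1 / (2 * E) ≤ logb 2 d / M ∧
      (logb 2 d - n) / M ≤ (1 - 1 / (2 * E)) * (logb 2 d / M) ^ 2 := by
  obtain ⟨h1, h2, h3, h4⟩ := logs hd hde hM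
  have hE' : (1 : ℝ) ≤ E := by exact_mod_cast hE
  have hM' : (3 : ℝ) ≤ M := by exact_mod_cast hM3
  set L := logb 2 d with hL
  set Le := logb 2 e with hLe
  have hnL : (n : ℝ) ≤ L := by
    have h5 : 2 ^ n ≤ d - 1 := Nat.le_of_dvd (by omega) hn
    have h6 : (2 : ℝ) ^ n ≤ d := by
      have : 2 ^ n ≤ d := by omega
      exact_mod_cast this
    have h7 := logb_le_logb_of_le one_lt_two (by positivity) h6
    rw [logb_pow, logb_self_eq_one one_lt_two, mul_one] at h7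
    exact h7
  have hLM : L ≤ M := by linarith
  have hLe1 : M - L ≤ Le := by linarith
  have hLe0 : 0 < M - L := by linarith
  have h5 : (1 + 1 / (E : ℝ)) * (L * (M - L)) < n * M := by
    refine lt_of_le_of_lt ?_ hexc
    have : L * (M - L) ≤ L * Le := by gcongr
    gcongr
  have h5' : (E + 1) * (L * (M - L)) < E * (n * M) := by
    have : (1 + 1 / (E : ℝ)) * (L * (M - L)) = (E + 1) * (L * (M - L)) / E := by
      field_simp
    rw [this, div_lt_iff₀ (by positivity)] at h5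
    linarith
  have h6 : (E + 1) * (M - L) < E * M := by
    have h7 : (E : ℝ) * (n * M) ≤ E * (L * M) := by gcongr
    have h8 : L * ((E + 1) * (M - L)) < L * (E * M) := by
      calc L * ((E + 1) * (M - L)) = (E + 1) * (L * (M - L)) := by ring
        _ < E * (n * M) := h5'
        _ ≤ E * (L * M) := h7
        _ = L * (E * M) := by ring
    exact lt_of_mul_lt_mul_left h8 h4.le
  have h7 : (M : ℝ) < (E + 1) * L := by nlinarith
  refine ⟨hnL.trans hLM, hnL, hLM, ?_, ?_⟩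
  · rw [div_le_div_iff₀ (by positivity) (by positivity)]
    nlinarith
  · have h8 : (L - n) * M ≤ (1 - 1 / (2 * E)) * L ^ 2 := by
      -- (L - n) M < L M - (1 + 1/E) L (M - L)
      have h9 : (L - n) * M ≤ L * M - (1 + 1 / (E : ℝ)) * (L * (M - L)) := by linarith
      have h10 : L * M - (1 + 1 / (E : ℝ)) * (L * (M - L)) =
          (1 + 1 / (E : ℝ)) * L ^ 2 - (1 / (E : ℝ)) * (L * M) := by ring
      have h11 : (3 : ℝ) / 2 * L ≤ M := by linarith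
      have h12 : (3 : ℝ) / 2 * L ^ 2 ≤ L * M := by nlinarith
      have h13 : (1 / (E : ℝ)) * ((3 : ℝ) / 2 * L ^ 2) ≤ (1 / (E : ℝ)) * (L * M) := by gcongr
      have h14 : (1 - 1 / (2 * (E : ℝ))) * L ^ 2 =
          (1 + 1 / (E : ℝ)) * L ^ 2 - (1 / (E : ℝ)) * ((3 : ℝ) / 2 * L ^ 2) := by
        field_simp; ring
      rw [h14]
      linarith
    have hMpos : (0 : ℝ) < M := by linarith
    rw [div_pow, ← mul_div_assoc, div_le_div_iff₀ hMpos (by positivity)]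
    calc (L - n) * (M : ℝ) ^ 2 = ((L - n) * M) * M := by ring
      _ ≤ ((1 - 1 / (2 * E)) * L ^ 2) * M := by gcongr

/-- the number of admissible monomials is large -/
lemma card_S {E M d e n t N₀ B : ℕ} (hE : 1 ≤ E) (ht : t = 20 * E ^ 2) (hN : N₀ = 2 * E * t)
    (hM3 : 3 ≤ M) (hBM : B ≤ M) (hd : 1 < d) (hde : d ≤ e)
    (hM : d * e = 2 ^ M + 1) (hn : 2 ^ n ∣ d - 1)
    (hexc : (1 + 1 / (E : ℝ)) * (logb 2 d * logb 2 e) < n * M) :
    t * (t + 1) < 2 * (((range (N₀ + 1) ×ˢ range (N₀ + t + 1)).filter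
      (fun p : ℕ × ℕ => N₀ * M ≤ n * p.1 + M * p.2 ∧
        2 ^ B * (d ^ p.1 * (2 ^ M) ^ p.2) ≤ d ^ t * (2 ^ M) ^ N₀)).card) := by
  obtain ⟨h1, h2, h3, h4, h5⟩ := params hE hM3 hd hde hM hn hexc
  have hL0 := (logs hd hde hM).2.2.2
  set L := logb 2 d with hL
  have hM' : (3 : ℝ) ≤ M := by exact_mod_cast hM3
  have hMpos : (0 : ℝ) < M := by linarith
  have hE' : (1 : ℝ) ≤ E := by exact_mod_cast hE
  have hlam0 : 0 < L / M := by positivity
  set J₁ := ⌊(t : ℝ) / (L / M)⌋₊ with hJ₁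
  have hJ1a : (J₁ : ℝ) ≤ t / (L / M) := Nat.floor_le (by positivity)
  have hJ1b : (t : ℝ) / (L / M) < J₁ + 1 := Nat.lt_floor_add_one _
  have hJ1c : J₁ ≤ N₀ := by
    have h6 : (J₁ : ℝ) ≤ N₀ := by
      refine hJ1a.trans ?_
      rw [div_le_iff₀ hlam0, hN]
      push_cast
      have h7 : 1 ≤ 2 * E * (L / M) := by
        rw [div_le_iff₀ (by positivity)] at h4
        linarith
      have ht0 : (0 : ℝ) ≤ t := by positivity
      nlinarith
    exact_mod_cast h6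
  have hb : (B : ℝ) / M ≤ 1 := by
    rw [div_le_one hMpos]; exact_mod_cast hBM
  have hnum := num_ineq E t J₁ hE ht (L / M) ((L - n) / M) h4 h5 hJ1a hJ1b (B / M) hb
  have hd0 : (0 : ℝ) < d := by exact_mod_cast (by omega : 0 < d)
  have hrow := card_rows N₀ (N₀ + t) J₁ hJ1c (fun p : ℕ × ℕ => N₀ * M ≤ n * p.1 + M * p.2 ∧
        2 ^ B * (d ^ p.1 * (2 ^ M) ^ p.2) ≤ d ^ t * (2 ^ M) ^ N₀)
        (L / M * t - B / M - 1) ((L - n) / M) (by
    intro j hj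
    have hjN : (j : ℝ) ≤ N₀ := by exact_mod_cast hj.trans hJ1c
    have hint := card_interval (N₀ + t) (N₀ - n * j / M) (N₀ + ((t - j) * L - B) / M) (by
        rw [sub_nonneg, div_le_iff₀ hMpos]
        calc (n : ℝ) * j ≤ M * N₀ := by gcongr
          _ = N₀ * M := by ring) (by
        push_cast
        have : ((t - j) * L - B) / M ≤ (t : ℝ) := by
          rw [div_le_iff₀ hMpos]
          have hB0 : (0 : ℝ) ≤ B := by positivity
          have hj0 : 0 ≤ (j : ℝ) * L := by positivity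
          have : (t : ℝ) * L ≤ t * M := by gcongr
          nlinarith
        linarith) (fun u => N₀ * M ≤ n * j + M * u ∧
        2 ^ B * (d ^ j * (2 ^ M) ^ u) ≤ d ^ t * (2 ^ M) ^ N₀) (by
      intro u hu1 hu2
      constructor
      · have h6 : (N₀ : ℝ) * M ≤ n * j + M * u := by
          have : (N₀ : ℝ) - u ≤ n * j / M := by linarith
          rw [le_div_iff₀ hMpos] at this
          linarith
        exact_mod_cast h6
      · have h6 : (B : ℝ) + (j * L + u * M) ≤ t * L + N₀ * M := by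
          have : (u : ℝ) - N₀ ≤ ((t - j) * L - B) / M := by linarith
          rw [le_div_iff₀ hMpos] at this
          linarith
        have h7 : logb 2 ((2 : ℝ) ^ B * ((d : ℝ) ^ j * ((2 : ℝ) ^ M) ^ u)) =
            B + (j * L + u * M) := by
          rw [logb_mul (by positivity) (by positivity), logb_mul (by positivity) (by positivity),
            logb_pow, logb_pow, logb_pow, logb_pow, logb_self_eq_one one_lt_two]
          ring
        have h8 : logb 2 ((d : ℝ) ^ t * ((2 : ℝ) ^ M) ^ N₀) = t * L + N₀ * M := by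
          rw [logb_mul (by positivity) (by positivity),
            logb_pow, logb_pow, logb_pow, logb_self_eq_one one_lt_two]
          ring
        rw [← h7, ← h8, logb_le_logb one_lt_two (by positivity) (by positivity)] at h6
        exact_mod_cast h6)
    refine le_trans ?_ hint
    have : L / M * t - B / M - 1 - (L - n) / M * j =
      N₀ + ((t - j) * L - B) / M - (N₀ - n * j / M) - 1 := by ring
    rw [this])
  have hfin : (t * (t + 1) : ℝ) / 2 < (((range (N₀ + 1) ×ˢ range (N₀ + t + 1)).filter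
      (fun p : ℕ × ℕ => N₀ * M ≤ n * p.1 + M * p.2 ∧
        2 ^ B * (d ^ p.1 * (2 ^ M) ^ p.2) ≤ d ^ t * (2 ^ M) ^ N₀)).card : ℝ) :=
    lt_of_lt_of_le hnum hrow
  have hfin2 : (t * (t + 1) : ℝ) < 2 * (((range (N₀ + 1) ×ˢ range (N₀ + t + 1)).filter
      (fun p : ℕ × ℕ => N₀ * M ≤ n * p.1 + M * p.2 ∧
        2 ^ B * (d ^ p.1 * (2 ^ M) ^ p.2) ≤ d ^ t * (2 ^ M) ^ N₀)).card : ℝ) := by linarith
  exact_mod_cast hfin2

/-- Exceptional divisors satisfy one of finitely many relations. -/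
theorem aux_relation (E : ℕ) (hE : 1 ≤ E) : ∃ J U H M₀ : ℕ, ∀ M : ℕ, M₀ ≤ M → ∀ d e : ℕ,
    1 < d → d ≤ e → d * e = 2 ^ M + 1 → ∀ n : ℕ, 2 ^ n ∣ d - 1 →
    (1 + 1 / (E : ℝ)) * (logb 2 d * logb 2 e) < n * M →
    ∃ c : ℕ × ℕ → ℤ, (∃ p ∈ range (J + 1) ×ˢ range (U + 1), c p ≠ 0) ∧ (∀ p, |c p| ≤ H) ∧
      ∑ p ∈ range (J + 1) ×ˢ range (U + 1), c p * ((1 - d : ℤ) ^ p.1 * (-2 ^ M) ^ p.2) = 0 := by
  classical
  obtain ⟨t, ht⟩ : ∃ t, t = 20 * E ^ 2 := ⟨_, rfl⟩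
  obtain ⟨N₀, hN⟩ : ∃ N₀, N₀ = 2 * E * t := ⟨_, rfl⟩
  have ht1 : 1 ≤ t := by
    have : 0 < E ^ 2 := by positivity
    omega
  obtain ⟨H, hH⟩ := exists_bound t ht1 (range (N₀ + 1) ×ˢ range (N₀ + t + 1))
  set Box := range (N₀ + 1) ×ˢ range (N₀ + t + 1) with hBox
  set B := Box.card * H with hB
  refine ⟨N₀, N₀ + t, H, max 3 B, ?_⟩
  intro M hM₀ d e hd hde hM n hn hexc
  have hM3 : 3 ≤ M := le_trans (le_max_left _ _) hM₀
  have hBM : B ≤ M := le_trans (le_max_right _ _) hM₀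
  set S := Box.filter (fun p : ℕ × ℕ => N₀ * M ≤ n * p.1 + M * p.2 ∧
        2 ^ B * (d ^ p.1 * (2 ^ M) ^ p.2) ≤ d ^ t * (2 ^ M) ^ N₀) with hS
  have hcard := card_S hE ht hN hM3 hBM hd hde hM hn hexc
  have hSB : S ⊆ Box := Finset.filter_subset _ _
  obtain ⟨c, hc1, ⟨p₀, hp₀⟩, hc3, hc4⟩ := hH S hSB hcard
  have hp₀S : p₀ ∈ S := by
    by_contra h
    exact hp₀ (hc1 p₀ h)
  have hsum : ∑ p ∈ Box, c p * ((1 - d : ℤ) ^ p.1 * (-2 ^ M) ^ p.2) =
      ∑ p ∈ S, c p * ((1 - d : ℤ) ^ p.1 * (-2 ^ M) ^ p.2) := by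
    symm
    apply Finset.sum_subset hSB
    intro p _ hp
    rw [hc1 p hp, zero_mul]
  refine ⟨c, ⟨p₀, hSB hp₀S, hp₀⟩, hc3, ?_⟩
  rw [hsum]
  -- divisibility by d ^ t
  have hdvd1 : (d : ℤ) ^ t ∣ ∑ p ∈ S, c p * ((1 - d : ℤ) ^ p.1 * (-2 ^ M) ^ p.2) := by
    have h := pow_dvd_sum t S c hc4 (-d) (-(d * e)) d ⟨-1, by ring⟩ ⟨-e, by ring⟩
    have h2 : (-(d : ℤ) + 1) = 1 - d := by ring
    have h3 : (-((d : ℤ) * e) + 1) = -2 ^ M := by
      have : (d : ℤ) * e = 2 ^ M + 1 := by exact_mod_cast hM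
      rw [this]; ring
    rw [h2, h3] at h
    exact h
  -- divisibility by 2 ^ (N₀ M)
  have hdvd2 : (2 : ℤ) ^ (N₀ * M) ∣ ∑ p ∈ S, c p * ((1 - d : ℤ) ^ p.1 * (-2 ^ M) ^ p.2) := by
    apply Finset.dvd_sum
    intro p hp
    rw [hS, mem_filter] at hp
    apply Dvd.dvd.mul_left
    have h2n : (2 : ℤ) ^ n ∣ 1 - d := by
      have h : ((2 ^ n : ℕ) : ℤ) ∣ ((d - 1 : ℕ) : ℤ) := Int.natCast_dvd_natCast.mpr hn
      rw [Nat.cast_sub (by omega)] at h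
      push_cast at h
      have h' : (1 : ℤ) - d = -(d - 1) := by ring
      rw [h']
      exact (dvd_neg).mpr h
    calc (2 : ℤ) ^ (N₀ * M) ∣ 2 ^ (n * p.1 + M * p.2) := pow_dvd_pow _ hp.2.1
      _ = (2 ^ n) ^ p.1 * (2 ^ M) ^ p.2 := by rw [pow_add, pow_mul, pow_mul]
      _ ∣ (1 - d : ℤ) ^ p.1 * (-2 ^ M) ^ p.2 := by
        apply mul_dvd_mul
        · exact pow_dvd_pow_of_dvd h2n _
        · exact pow_dvd_pow_of_dvd ((dvd_neg).mpr dvd_rfl) _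
  have hodd : IsCoprime ((d : ℤ) ^ t) ((2 : ℤ) ^ (N₀ * M)) := by
    apply IsCoprime.pow
    have h1 : (d : ℤ) * e = 2 ^ M + 1 := by exact_mod_cast hM
    obtain ⟨m, hm⟩ : ∃ m, M = m + 1 := ⟨M - 1, by omega⟩
    exact ⟨e, -2 ^ m, by rw [hm] at h1; rw [mul_comm, h1]; ring⟩
  have hdvd : (d : ℤ) ^ t * 2 ^ (N₀ * M) ∣
      ∑ p ∈ S, c p * ((1 - d : ℤ) ^ p.1 * (-2 ^ M) ^ p.2) := hodd.mul_dvd hdvd1 hdvd2
  apply Int.eq_zero_of_abs_lt_dvd hdvd
  -- size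
  have hterm : ∀ p ∈ S, 2 ^ B * |c p * ((1 - d : ℤ) ^ p.1 * (-2 ^ M) ^ p.2)| ≤
      (H : ℤ) * (d ^ t * 2 ^ (N₀ * M)) := by
    intro p hp
    rw [hS, mem_filter] at hp
    rw [abs_mul, abs_mul, abs_pow, abs_pow, abs_neg, abs_pow, abs_two]
    have h1 : |(1 : ℤ) - d| ≤ d := by
      have : (1 : ℤ) < d := by exact_mod_cast hd
      rw [abs_le]; constructor <;> linarith
    have h2 : ((2 : ℤ) ^ B * ((d : ℤ) ^ p.1 * (2 ^ M) ^ p.2)) ≤ d ^ t * (2 ^ M) ^ N₀ := by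
      exact_mod_cast hp.2.2
    have h3 : ((2 : ℤ) ^ M) ^ N₀ = 2 ^ (N₀ * M) := by rw [← pow_mul, mul_comm]
    rw [h3] at h2
    calc 2 ^ B * (|c p| * (|(1 : ℤ) - d| ^ p.1 * (2 ^ M) ^ p.2))
        ≤ 2 ^ B * (H * ((d : ℤ) ^ p.1 * (2 ^ M) ^ p.2)) := by
          have := hc3 p
          gcongr
      _ = H * (2 ^ B * ((d : ℤ) ^ p.1 * (2 ^ M) ^ p.2)) := by ring
      _ ≤ H * (d ^ t * 2 ^ (N₀ * M)) := by gcongr
  have hsz : 2 ^ B * |∑ p ∈ S, c p * ((1 - d : ℤ) ^ p.1 * (-2 ^ M) ^ p.2)| ≤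
      (B : ℤ) * (d ^ t * 2 ^ (N₀ * M)) := by
    calc 2 ^ B * |∑ p ∈ S, c p * ((1 - d : ℤ) ^ p.1 * (-2 ^ M) ^ p.2)|
        ≤ 2 ^ B * ∑ p ∈ S, |c p * ((1 - d : ℤ) ^ p.1 * (-2 ^ M) ^ p.2)| := by
          gcongr
          exact Finset.abs_sum_le_sum_abs _ _
      _ = ∑ p ∈ S, 2 ^ B * |c p * ((1 - d : ℤ) ^ p.1 * (-2 ^ M) ^ p.2)| := by rw [Finset.mul_sum]
      _ ≤ ∑ p ∈ S, (H : ℤ) * (d ^ t * 2 ^ (N₀ * M)) := Finset.sum_le_sum hterm
      _ = S.card * ((H : ℤ) * (d ^ t * 2 ^ (N₀ * M))) := by rw [Finset.sum_const, nsmul_eq_mul]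
      _ ≤ Box.card * ((H : ℤ) * (d ^ t * 2 ^ (N₀ * M))) := by
          have : S.card ≤ Box.card := Finset.card_le_card hSB
          gcongr
      _ = (B : ℤ) * (d ^ t * 2 ^ (N₀ * M)) := by rw [hB]; push_cast; ring
  have hB2 : (B : ℤ) < 2 ^ B := by exact_mod_cast Nat.lt_two_pow_self
  have hpos : (0 : ℤ) < d ^ t * 2 ^ (N₀ * M) := by
    have : (0 : ℤ) < d := by exact_mod_cast (by omega : 0 < d)
    positivity
  by_contra hcon
  push Not at hcon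
  have h1 : (2 : ℤ) ^ B * (d ^ t * 2 ^ (N₀ * M)) ≤
      2 ^ B * |∑ p ∈ S, c p * ((1 - d : ℤ) ^ p.1 * (-2 ^ M) ^ p.2)| := by gcongr
  have h2 : (B : ℤ) * (d ^ t * 2 ^ (N₀ * M)) < 2 ^ B * (d ^ t * 2 ^ (N₀ * M)) :=
    mul_lt_mul_of_pos_right hB2 hpos
  linarith

end Pool.Agent.H95.Hyp
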